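import Mathlib
import Pool.Agent.TH142.PN.Defs

/-!
# Translations, evaluation, Taylor formula, logarithmic derivative for polynomial matrices
(helper55, job PN-A3 for helper142)
-/

set_option autoImplicit false

namespace Pool.Agent.TH55.PN

open Finset Polynomial Pool.Agent.TH91.RF Pool.Agent.TH142.PN

noncomputable section

variable {ι : Type} {N : ℕ}

theorem taylor_sum (p : ℝ[X]) (t : ℝ) (K : ℕ) (hK : p.natDegree < K) :
    p.comp (X + C t) = ∑ k ∈ range K, ((k.factorial : ℝ)⁻¹ * t ^ k) • derivative^[k] p := by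
  ext n
  rw [← taylor_apply, taylor_coeff, finsetSum_coeff]
  rw [eval_eq_sum_range' (n := K) (lt_of_le_of_lt (natDegree_hasseDeriv_le p n) (by omega))]
  refine sum_congr rfl fun k _ => ?_
  rw [hasseDeriv_coeff, coeff_smul, coeff_iterate_derivative, nsmul_eq_mul, smul_eq_mul,
    add_comm n k]
  have h1 : ((k + n).descFactorial k : ℝ) = k.factorial * ((k + n).choose n : ℝ) := by
    rw [Nat.descFactorial_eq_factorial_mul_choose, Nat.cast_mul]
    congr 2
    exact Nat.choose_symm_add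
  rw [h1]
  have h2 : (k.factorial : ℝ) ≠ 0 := by positivity
  field_simp

theorem dd_iter (t : ℝ) (x : PM ι N) (k : ℕ) (i : ι) (a b : Fin N) :
    ((((t • dd ι N : PM ι N →ₗ[ℝ] PM ι N).restrictScalars ℚ) ^ k) x) i a b =
      t ^ k • derivative^[k] (x i a b) := by
  induction k generalizing i a b with
  | zero => simp
  | succ k ih =>
    rw [pow_succ', Module.End.mul_apply, Function.iterate_succ_apply']
    have h1 : ∀ y : PM ι N, ((t • dd ι N : PM ι N →ₗ[ℝ] PM ι N).restrictScalars ℚ) y i a b =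
        t • derivative (y i a b) := fun y => rfl
    rw [h1, ih, derivative_smul, smul_smul, pow_succ']

theorem wF_deg {Θ : ℕ} {x : PM ι N} (hx : x ∈ (wF ι N Θ).F 0) (i : ι) (a b : Fin N) :
    (x i a b).natDegree < Θ * N + 1 + 1 := by
  have h : (x i a b).natDegree ≤ Θ * N := by
    rw [natDegree_le_iff_coeff_eq_zero]
    intro n hn
    by_contra h
    have h1 := hx i a b n h
    have h2 : Θ * (b : ℕ) ≤ Θ * N := Nat.mul_le_mul_left _ b.2.le
    omega
  omega

theorem sh_apply (t : ℝ) (x : PM ι N) (i : ι) (a b : Fin N) :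
    sh ι N t x i a b = (x i a b).comp (X + C t) := rfl

theorem ev_apply (m : ℤ) (x : PM ι N) (i : ι) (a b : Fin N) :
    ev ι N m x i a b = (x i a b).eval (m : ℝ) := rfl

/-- Taylor's formula -/
theorem sh_eq_sum {Θ : ℕ} (t : ℝ) {x : PM ι N} (hx : x ∈ (wF ι N Θ).F 0) :
    sh ι N t x = ∑ k ∈ range (Θ * N + 1 + 1),
      (k.factorial : ℚ)⁻¹ • (((t • dd ι N : PM ι N →ₗ[ℝ] PM ι N).restrictScalars ℚ) ^ k) x := by
  funext i
  ext1 a b
  rw [sh_apply, taylor_sum _ t _ (wF_deg hx i a b)]
  rw [Finset.sum_apply, Matrix.sum_apply]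
  refine sum_congr rfl fun k _ => ?_
  rw [Pi.smul_apply, Matrix.smul_apply, dd_iter]
  rw [mul_smul]
  have h1 : ∀ y : ℝ[X], ((k.factorial : ℚ)⁻¹) • y = ((k.factorial : ℝ)⁻¹) • y := by
    intro y
    rw [← Rat.cast_smul_eq_qsmul ℝ]
    push_cast
    rfl
  rw [h1]

theorem ev_sh (m n : ℤ) (x : PM ι N) : ev ι N m (sh ι N (n : ℝ) x) = ev ι N (m + n) x := by
  funext i
  ext1 a b
  rw [ev_apply, ev_apply, sh_apply, eval_comp]
  simp

theorem sh_sh (s t : ℝ) (x : PM ι N) : sh ι N s (sh ι N t x) = sh ι N (s + t) x := by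
  funext i
  ext1 a b
  rw [sh_apply, sh_apply, sh_apply, comp_assoc]
  congr 1
  simp [add_assoc]

theorem sh_zero (x : PM ι N) : sh ι N 0 x = x := by
  funext i
  ext1 a b
  rw [sh_apply]
  simp

theorem sh_cst (t : ℝ) (x : Matrix (Fin N) (Fin N) ℝ) : sh ι N t (cst ι x) = cst ι x := by
  funext i
  ext1 a b
  rw [sh_apply]
  show (C (x a b)).comp (X + C t) = C (x a b)
  simp

theorem ev_cst (m : ℤ) (x : Matrix (Fin N) (Fin N) ℝ) (i : ι) : ev ι N m (cst ι x) i = x := by
  ext1 a b
  rw [ev_apply]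
  show (C (x a b)).eval (m : ℝ) = x a b
  simp

theorem ev_px (m : ℤ) (p : ι → ℝ[X]) (x : Matrix (Fin N) (Fin N) ℝ) (i : ι) :
    ev ι N m (px p x) i = (p i).eval (m : ℝ) • x := by
  ext1 a b
  rw [ev_apply]
  show (p i * C (x a b)).eval (m : ℝ) = (p i).eval (m : ℝ) * x a b
  simp

theorem ev_exp (m : ℤ) {x : PM ι N} (hx : IsNilpotent x) (i : ι) :
    ev ι N m (IsNilpotent.exp x) i = IsNilpotent.exp (ev ι N m x i) := by
  have h1 := IsNilpotent.map_exp hx ((Pi.evalRingHom _ i).comp (ev ι N m))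
  exact h1

theorem sh_exp (t : ℝ) {x : PM ι N} (hx : IsNilpotent x) :
    sh ι N t (IsNilpotent.exp x) = IsNilpotent.exp (sh ι N t x) :=
  IsNilpotent.map_exp hx (sh ι N t)

/-- elements are determined by their values at the integers -/
theorem ev_inj {x y : PM ι N} (h : ∀ m : ℤ, ev ι N m x = ev ι N m y) : x = y := by
  funext i
  ext1 a b
  apply Polynomial.eq_of_infinite_eval_eq
  apply Set.Infinite.mono _ (Set.infinite_range_of_injective (Int.cast_injective (α := ℝ)))
  rintro _ ⟨m, rfl⟩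
  show eval (m : ℝ) (x i a b) = eval (m : ℝ) (y i a b)
  rw [← ev_apply, ← ev_apply, h]

/-- `px p x` is in the first step of the weight filtration -/
theorem px_mem' {p : ι → ℝ[X]} {Θ : ℕ} (hΘ : ∀ i, (p i).natDegree < Θ)
    {x : Matrix (Fin N) (Fin N) ℝ} (hx : ∀ i j, j ≤ i → x i j = 0) :
    px p x ∈ (wF ι N Θ).F 1 := by
  intro i a b n h
  have h1 : (p i * C (x a b)).coeff n ≠ 0 := h
  rw [coeff_mul_C] at h1
  have h2 : n ≤ (p i).natDegree := le_natDegree_of_ne_zero (left_ne_zero_of_mul h1)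
  have h3 : a < b := by
    by_contra h4
    exact right_ne_zero_of_mul h1 (hx a b (not_lt.1 h4))
  have h5 := hΘ i
  have h6 : (a : ℕ) + 1 ≤ b := h3
  have h7 : Θ * ((a : ℕ) + 1) ≤ Θ * b := Nat.mul_le_mul_left _ h6
  rw [mul_add, mul_one] at h7
  omega

theorem dd_mul' (x y : PM ι N) : dd ι N (x * y) = dd ι N x * y + x * dd ι N y := by
  funext i
  ext1 a b
  show derivative ((x i * y i) a b) = (((x i).map derivative) * y i) a b +
    (x i * (y i).map derivative) a b
  simp only [Matrix.mul_apply, Matrix.map_apply, derivative_sum, derivative_mul,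
    sum_add_distrib]

theorem dd_px (p : ι → ℝ[X]) (x : Matrix (Fin N) (Fin N) ℝ) :
    dd ι N (px p x) = px (fun i => derivative (p i)) x := by
  funext i
  ext1 a b
  show derivative (p i * C (x a b)) = derivative (p i) * C (x a b)
  simp

theorem px_comm (p q : ι → ℝ[X]) (x : Matrix (Fin N) (Fin N) ℝ) :
    px p x * px q x = px q x * px p x := by
  funext i
  show (p i • x.map C) * (q i • x.map C) = (q i • x.map C) * (p i • x.map C)
  rw [smul_mul_smul_comm, smul_mul_smul_comm, mul_comm]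

theorem px_neg (p : ι → ℝ[X]) (x : Matrix (Fin N) (Fin N) ℝ) :
    -(px p x) = px (fun i => -p i) x := by
  funext i
  show -(p i • x.map C) = (-p i) • x.map C
  rw [neg_smul]

theorem px_sub (p : ι → ℝ[X]) (x y : Matrix (Fin N) (Fin N) ℝ) :
    px p (x - y) = px p x - px p y := by
  funext i
  show p i • (x - y).map C = p i • x.map C - p i • y.map C
  rw [← smul_sub]
  congr 1
  ext1 a b
  simp

theorem deriv_exp_px {p : ι → ℝ[X]} {Θ : ℕ} (hΘ : ∀ i, (p i).natDegree < Θ)
    {v : Matrix (Fin N) (Fin N) ℝ} (hv : ∀ i j, j ≤ i → v i j = 0) :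
    dd ι N (IsNilpotent.exp (px p v)) =
      IsNilpotent.exp (px p v) * px (fun i => derivative (p i)) v := by
  have hp' : ∀ i, (derivative (p i)).natDegree < Θ := fun i =>
    lt_of_le_of_lt (natDegree_derivative_le _) (by have := hΘ i; omega)
  have h1 := (wF ι N Θ).deriv_exp (dd ι N).toAddMonoidHom dd_mul'
    (fun q x => by
      show dd ι N (q • x) = q • dd ι N x
      rw [map_rat_smul])
    (px_mem' hΘ hv) (by
      show dd ι N (px p v) ∈ _
      rw [dd_px]
      exact px_mem' hp' hv)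
  have h2 : ∀ k : ℕ, k ≠ 0 → (adr (px p v))^[k] (dd ι N (px p v)) = 0 := by
    intro k hk
    obtain ⟨k, rfl⟩ := Nat.exists_eq_succ_of_ne_zero hk
    rw [Function.iterate_succ_apply]
    have h3 : adr (px p v) (dd ι N (px p v)) = 0 := by
      unfold adr
      rw [dd_px, px_comm, sub_self]
    rw [h3]
    have h4 : adr (px p v) 0 = 0 := by simp [adr]
    exact Function.iterate_fixed h4 k
  have h5 : ∑ k ∈ range (Θ * N + 1 + 1), ((k + 1).factorial : ℚ)⁻¹ •
      (adr (px p v))^[k] (dd ι N (px p v)) = dd ι N (px p v) := by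
    rw [Finset.sum_eq_single 0]
    · simp
    · intro k _ hk
      rw [h2 k hk, smul_zero]
    · intro h
      exact absurd (mem_range.2 (by omega)) h
  have h6 : dd ι N (IsNilpotent.exp (px p v)) = IsNilpotent.exp (px p v) *
      ∑ k ∈ range (Θ * N + 1 + 1), ((k + 1).factorial : ℚ)⁻¹ •
        (adr (px p v))^[k] (dd ι N (px p v)) := h1
  rw [h6, h5, dd_px]

theorem exp_px_comm {p q : ι → ℝ[X]} {Θ : ℕ} (hΘ : ∀ i, (p i).natDegree < Θ)
    {v : Matrix (Fin N) (Fin N) ℝ} (hv : ∀ i j, j ≤ i → v i j = 0) :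
    IsNilpotent.exp (px p v) * px q v = px q v * IsNilpotent.exp (px p v) := by
  rw [(wF ι N Θ).exp_eq (px_mem' hΘ hv), sum_mul, mul_sum]
  refine sum_congr rfl fun k _ => ?_
  rw [smul_mul_assoc, mul_smul_comm]
  congr 1
  exact (Commute.pow_left (px_comm p q v) k).eq

/-- the logarithmic derivative of `e^{p v} e^{-p D}` -/
theorem log_deriv {p : ι → ℝ[X]} {Θ : ℕ} (hΘ : ∀ i, (p i).natDegree < Θ) (hΘ0 : 0 < Θ)
    {v D : Matrix (Fin N) (Fin N) ℝ}
    (hv : ∀ i j, j ≤ i → v i j = 0) (hD : ∀ i j, j ≤ i → D i j = 0) :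
    (IsNilpotent.exp (px p D) * IsNilpotent.exp (-(px p v))) *
      dd ι N (IsNilpotent.exp (px p v) * IsNilpotent.exp (-(px p D))) = FF p D (v - D) := by
  have hnp : ∀ i, (-p i).natDegree < Θ := fun i => by rw [natDegree_neg]; exact hΘ i
  have hnv : IsNilpotent (px p v) := (wF ι N Θ).nilp (px_mem' hΘ hv)
  have hnD : IsNilpotent (px p D) := (wF ι N Θ).nilp (px_mem' hΘ hD)
  have e1 := deriv_exp_px hΘ hv
  have e2 : dd ι N (IsNilpotent.exp (-(px p D))) =
      IsNilpotent.exp (-(px p D)) * -(px (fun i => derivative (p i)) D) := by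
    rw [px_neg, deriv_exp_px hnp hD, px_neg]
    simp only [derivative_neg]
  have e3 : IsNilpotent.exp (-(px p D)) * px (fun i => derivative (p i)) D =
      px (fun i => derivative (p i)) D * IsNilpotent.exp (-(px p D)) := by
    rw [px_neg]
    exact exp_px_comm hnp hD
  have e4 : IsNilpotent.exp (-(px p v)) * IsNilpotent.exp (px p v) = 1 :=
    IsNilpotent.exp_neg_mul_exp_self hnv
  have e5 : FF p D (v - D) = IsNilpotent.exp (px p D) *
      px (fun i => derivative (p i)) (v - D) * IsNilpotent.exp (-(px p D)) := by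
    funext i
    show derivative (p i) • (IsNilpotent.exp (px p D) i * (v - D).map C *
      IsNilpotent.exp (-(px p D)) i) = IsNilpotent.exp (px p D) i *
      (derivative (p i) • (v - D).map C) * IsNilpotent.exp (-(px p D)) i
    rw [mul_smul_comm, smul_mul_assoc]
  rw [dd_mul', e1, e2, e5, px_sub]
  set a := IsNilpotent.exp (px p D)
  set b := IsNilpotent.exp (-(px p D))
  set c := IsNilpotent.exp (px p v)
  set c' := IsNilpotent.exp (-(px p v))
  set P := px (fun i => derivative (p i)) v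
  set Q := px (fun i => derivative (p i)) D
  calc a * c' * (c * P * b + c * (b * -Q)) = a * (c' * c) * P * b - a * (c' * c) * (b * Q) := by
        noncomm_ring
    _ = a * (P - Q) * b := by
        rw [e4, e3]
        noncomm_ring

end

end Pool.Agent.TH55.PN
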